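import Pool.Agent.N101.CB.EMain

set_option autoImplicit false

/-! # The local motivic monodromy conjecture: cubic polynomials suffice

`Conj f`, for a polynomial `f` over `ℂ` in `n` variables with `f(0) = 0`: there is a finite set `S` of pairs
`(a, b)`, `b > 0`, such that the local motivic zeta function
`Z_{mot, 0, f}(T) = 𝕃 ^ (-n) ∑_{l ≥ 1} [X_l] (𝕃 ^ (-n) T) ^ l` lies in `𝓜[T][1 / (1 - 𝕃 ^ a T ^ b)]_{(a, b) ∈ S}`, and
such that for every `(a, b)` in `S` every polynomial which satisfies a functional equation of `f` near the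
origin has a root in `a / b + ℤ`. By the theorem of Malgrange and Kashiwara the second condition means
that in every neighbourhood of the origin there is a point of `f ^ (-1)(0)` at which `exp(2 π i a / b)` is a
monodromy eigenvalue of `f`.

The theorem: the conjecture holds for all non-constant polynomials with `f(0) = 0`, in any number of
variables, if and only if it holds for the cubic polynomials of the form `q_0(x) + ∑_k t_k q_k(x)`, where the
`q_0, q_k` have degree at most two and all monomials are squarefree (`Cub`).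

Proof. By steps `f ↦ f + (t + c x ^ b) (w - x ^ a)`, images of `f + t w` by automorphisms which fix the
origin, `c x ^ (a + b)` a monomial of `f`, all monomials become squarefree, of degree at most one in the `t`
and at most two in the other variables. For the local zeta functions we use
`𝕃 ^ 3 (1 - 𝕃⁻¹ T) Z_f(T) = (𝕃 ^ 2 + 𝕃) U_1(𝕃 T) - U_2(𝕃 ^ 2 T) +` (a polynomial),
`U_1 = (1 - 𝕃⁻¹ T) Z_{f + t w}(T)`, `U_2 = (1 - 𝕃⁻¹ T) Z_{f + t w + y z}(T)`, and for the functional
equations: `(s + 1) c(s)` for `f` gives `(s + 1) c(s + 1)` for `f + t w`. -/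

namespace Pool.Agent.Results.MP_9321be_ag.CubicPolynomials

open MvPolynomial Pool.Agent.W428.MOT Pool.Agent.N101.CB
open Pool.Agent.H628R4.TP (IsLocalBFunction)

/-- The local motivic zeta function `𝕃 ^ (-n) ∑_l [X_l] (𝕃 ^ (-n) T) ^ l`: `X_l` is the variety of the jets
`φ` of level `l` with `φ(0) = 0` and `ord f(φ) = l`. -/
noncomputable def Zmot0 {n : ℕ} (f : MvPolynomial (Fin n) ℂ) : PowerSeries (MK ℂ) :=
  PowerSeries.C (((Lu ℂ) ^ (-(n : ℤ)) : (MK ℂ)ˣ) : MK ℂ) * zt f {0}

/-- The conjecture for `f`, see above. -/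
def Conj {n : ℕ} (f : MvPolynomial (Fin n) ℂ) : Prop :=
  ∃ S : Finset (ℤ × ℤ), (∀ p ∈ S, 0 < p.2 ∧ ∀ b : Polynomial ℂ, IsLocalBFunction f b →
      ∃ l : ℤ, b.eval ((((p.1 : ℚ) / p.2 : ℚ) : ℂ) + l) = 0) ∧
    Zmot0 f ∈ ratRing ℂ S

theorem conj_iff {n : ℕ} (f : MvPolynomial (Fin n) ℂ) : Conj f ↔ EM.LWeakMC f := by
  have h : ∀ S : Set (ℤ × ℤ), Zmot0 f ∈ ratRing ℂ S ↔ zt f {0} ∈ ratRing ℂ S := by
    intro S
    constructor
    · intro h
      have h1 := (ratRing ℂ S).mul_mem
        (Pool.Agent.W63.MTFin.C_mem _ (((Lu ℂ) ^ (n : ℤ) : (MK ℂ)ˣ) : MK ℂ)) h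
      unfold Zmot0 at h1
      rw [← mul_assoc, ← map_mul, ← Units.val_mul, ← zpow_add, add_neg_cancel, zpow_zero,
        Units.val_one, map_one, one_mul] at h1
      exact h1
    · intro h
      exact (ratRing ℂ S).mul_mem (Pool.Agent.W63.MTFin.C_mem _ _) h
  unfold Conj EM.LWeakMC
  simp only [h]
  rfl

/-- **Cubic polynomials suffice for the local motivic monodromy conjecture.** The conjecture holds for all
non-constant polynomials `f` with `f(0) = 0` if and only if it holds for the cubic ones with `Cub f`. More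
precisely, it holds for `f` if it holds for `f + (t + v(x)) (w - u(x))` and for
`f + (t + v(x)) (w - u(x)) + y z`, for any polynomials `u`, `v` with `u(0) = v(0) = 0`. -/
theorem result :
    ((∀ (n : ℕ) (f : MvPolynomial (Fin n) ℂ), f.totalDegree ≠ 0 → constantCoeff f = 0 → Conj f) ↔
      ∀ (n : ℕ) (f : MvPolynomial (Fin n) ℂ), Cub f → f.totalDegree ≠ 0 →
        constantCoeff f = 0 → Conj f) ∧
    ∀ (n : ℕ) (f u v : MvPolynomial (Fin n) ℂ), f.totalDegree ≠ 0 → constantCoeff f = 0 →
      constantCoeff u = 0 → constantCoeff v = 0 → Conj (stp f u v) →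
      Conj (Pool.Agent.Y229.MS.addyz (stp f u v)) → Conj f := by
  simp only [conj_iff]
  exact ⟨⟨fun h n f _ => h n f, fun h n f hf hf0 => EM.lweakMC_red h n f hf hf0⟩,
    fun _ f u v hf hf0 hu hv h1 h2 => EM.lweakMC_step f u v hf hf0 hu hv h1 h2⟩

end Pool.Agent.Results.MP_9321be_ag.CubicPolynomials
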