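import Pool.Agent.N103.Main

set_option autoImplicit false

/-! # The local motivic monodromy conjecture for `h(x) (f₀(x) + ∑ y_j f_j(x)) ^ a`, `x = (x₁, x₂)`

Here `h`, `f₀` and the `f_j`, `j ∈ κ`, are arbitrary polynomials in the two variables `x₁, x₂`, the
`y_j` are further variables (their number is arbitrary), `a ≥ 1`, and
`F = FF h f a = h (f₀ + ∑ y_j f_j) ^ a ≠ 0`. For `h = 1` and `a = 1` these are all the polynomials in
`2 + |κ|` variables whose degree with respect to all the variables but two is at most `1`; for
instance the surfaces `f₀(x₁, x₂) + y f₁(x₁, x₂) = 0`, and the cones over the plane projective curves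
of degree `d` with a point of multiplicity at least `d - 1`. The singularities of `F` are in general
not isolated, and degenerate with respect to the Newton polyhedra.

The resolution: let `X' → ℂ ^ 2` be a composition of blow-ups of points such that `h` and the pull-back
of the ideal `(f₀, f_j)` become monomial; on `X' × ℂ ^ κ` the polynomial `F` is a monomial in the
equations of the exceptional curves and of the strict transforms of the curves, times
`(g₀ + ∑ y_j g_j) ^ a`, where the `g₀, g_j` have no common zero; so `g₀ + ∑ y_j g_j = 0` is smooth and
transversal to the other components. The local motivic zeta function of `F` at the origin is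
`L ^ (-(2 + |κ|))` times the sum over the strata over the origin, which is computed by the inductive
rules of `GermZeta` (in `Pool.Agent.N103.ZDefs`), with the local factors
`(L - 1) L⁻ⁿ Tᵃ / (1 - L⁻ⁿ Tᵃ)` (`mf L`, in `Pool.Agent.W574.MO.Defs`).

The theorem: this zeta function lies in the ring `M[T][(1 - L⁻ⁿ Tᵃ)⁻¹]`, where the pairs `a, n ≥ 1` are
such that `-n/a` is a root of the local Bernstein-Sato polynomial of `F` at the origin. By the theorem
of Malgrange and Kashiwara the numbers `exp(-2 π i n/a)` are then monodromy eigenvalues of `F` at
points of `{F = 0}` arbitrarily close to the origin.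

The proof (`Pool.Agent.N103`): let `E` be an exceptional curve of `X'` with the candidate pole
`s₀ = -ν / N`, `b(s₀) ≠ 0`.

* `algebraic_of_local`: the functional equation with formal power series coefficients gives one with
  polynomial coefficients, with the same `b`, up to a factor which does not vanish at the origin;
* `engine2`, `star`: this functional equation, applied to the pull-back of `F` near `E × {0}`, gives a
  solution of a differential equation of first order on `E`, with coefficients in the
  ring of polynomials in the `y_j` localized at `f₀ + ∑ y_j f_j`;
* `partA`, `partC1`, `partC2`, `partB`, `nodeT`: if `g₀` does not vanish on `E`, this gives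
  a rational solution on `E`; if it does, all the `g_j` are proportional on `E`, and there is such a
  solution too; and if `g₀` has a zero at a point of `E` at which some `g_j` has a zero of smaller
  order, there is no other component at this point (comparison of the orders in `y`);
* `blowA`: by the rational solution at most two of the points of `E` are special, and the sum of the
  contributions of `E` lies in the ring of the series whose denominators do not vanish at `s₀`;
* `curve_rootA`, `typeH_root`: the numbers `-1 / N` of the strict transforms are roots of `b`;
* `good_all`: induction over the tree of the blow-ups;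
* `descent`: over the unique factorization domain `ℤ[L, L⁻¹]`, all denominators which do not
  belong to roots of `b` can be removed at the same time; the zeta function comes from this ring
  (`exists_univA`). -/

namespace Pool.Agent.Results.MP_9321be_ag.DegreeOneOffPlane

open Pool.Agent.N103 Pool.Agent.H628R4.TP Pool.Agent.W574.MO

/-- **The local motivic monodromy conjecture for the polynomials
`F = h(x₁, x₂) (f₀(x₁, x₂) + ∑ y_j f_j(x₁, x₂)) ^ a`**, for arbitrary polynomials `h`, `f₀`, `f_j`, `a ≥ 1` and
`F ≠ 0`. `M` is a commutative ring with a unit `L`, for example `M = K₀(Var_ℂ)[1/L]`. Let `b` satisfy a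
functional equation `b(s) F ^ s = P(s) F ^ (s + 1)` with a differential operator `P(s)` whose
coefficients are formal power series at the origin (for instance the local Bernstein-Sato
polynomial of `F`), and let `Z ∈ M⟦T⟧` be `L ^ (2 + |κ|)` times the local motivic zeta function of
`F` at the origin, `PointZeta (mf L) L h f a 0 0 Z`. Then `Z` lies in the ring
`M[T][(1 - L⁻ⁿ Tᵃ)⁻¹]`, where the pairs `a, n ≥ 1` are such that `b(-n/a) = 0` (`Kb b a n`). -/
theorem result {M : Type} [CommRing M] (L : Mˣ) {κ : Type} [Fintype κ]
    (h : MvPolynomial (Fin 2) ℂ) (f : Option κ → MvPolynomial (Fin 2) ℂ) (a : ℕ) (ha : 1 ≤ a)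
    (hF : FF h f a ≠ 0) (b : Polynomial ℂ) (hb : IsLocalBFunction (FF h f a) b)
    (Z : PowerSeries M) (hZ : PointZeta (mf L) (PowerSeries.C (L : M)) h f a 0 0 Z) :
    Z ∈ DenRing L (Kb b) := by
  classical
  exact local_mot L h f a ha hF b hb Z hZ

end Pool.Agent.Results.MP_9321be_ag.DegreeOneOffPlane
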